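import Pool.Agent.H38.WT.Targets

/-!
Module CYC of the board wt_modules (MP_0cb3c0_co): the cycle exists.
-/

set_option autoImplicit false

namespace Pool.Agent.H94.WT

open Pool.Agent.H38.WT

theorem maps {m : ℕ} {C : Set (Fin m)} {j : Fin m} {σ : Equiv.Perm (Fin m)} (h : IsCyc C j σ)
    {x : Fin m} (hx : x ∈ C) : σ.symm x ∈ C := by
  by_contra hn
  have h1 := h.fix _ hn
  rw [Equiv.apply_symm_apply] at h1
  exact hn (h1 ▸ hx)

theorem aux {m : ℕ} (j : Fin m) : ∀ (n : ℕ) (C : Finset (Fin m)), C.card = n → j ∈ C →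
    (∀ x ∈ C, x ≤ j) → ∃ σ, IsCyc (C : Set (Fin m)) j σ := by
  intro n
  induction n with
  | zero =>
    intro C hC hj
    rw [Finset.card_eq_zero] at hC
    simp [hC] at hj
  | succ n ih =>
    intro C hC hj hle
    set c := C.min' ⟨j, hj⟩ with hc
    have hcC : c ∈ C := C.min'_mem _
    have hcm : ∀ x ∈ C, c ≤ x := fun x hx => C.min'_le x hx
    rcases eq_or_ne c j with hcj | hcj
    · refine ⟨1, ⟨fun x _ => rfl, fun x hx => ?_, fun x hx y hy hxy hyj => hxy⟩⟩
      change j ≤ x
      rw [← hcj]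
      exact hcm x hx
    · have hj' : j ∈ C.erase c := Finset.mem_erase.2 ⟨hcj.symm, hj⟩
      obtain ⟨σ', h'⟩ := ih (C.erase c) (by rw [Finset.card_erase_of_mem hcC, hC]; rfl) hj'
        (fun x hx => hle x (Finset.mem_of_mem_erase hx))
      have hc' : σ' c = c := h'.fix c (by simp)
      have hc'' : σ'.symm c = c := by
        rw [Equiv.symm_apply_eq, hc']
      refine ⟨Equiv.swap c j * σ', ⟨?_, ?_, ?_⟩⟩
      · intro x hx
        have hxc : x ≠ c := fun h => hx (h ▸ hcC)
        have hxj : x ≠ j := fun h => hx (h ▸ hj)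
        have h1 : σ' x = x := h'.fix x fun h => hx (Finset.mem_of_mem_erase h)
        change Equiv.swap c j (σ' x) = x
        rw [h1, Equiv.swap_apply_of_ne_of_ne hxc hxj]
      · intro x hx
        change σ'.symm (Equiv.swap c j j) ≤ x
        rw [Equiv.swap_apply_right, hc'']
        exact hcm x hx
      · intro x hx y hy hxy hyj
        change σ'.symm (Equiv.swap c j x) < σ'.symm (Equiv.swap c j y)
        have hyc : y ≠ c := fun h => absurd (hcm x hx) (not_le.2 (h ▸ hxy))
        have hy' : y ∈ C.erase c := Finset.mem_erase.2 ⟨hyc, hy⟩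
        rw [Equiv.swap_apply_of_ne_of_ne hyc hyj.ne]
        rcases eq_or_ne x c with hxc | hxc
        · rw [hxc, Equiv.swap_apply_left]
          have h2 := h'.low _ (maps h' (Finset.mem_coe.2 hy'))
          refine lt_of_le_of_ne h2 fun h3 => hyj.ne ?_
          exact (σ'.symm.injective h3).symm
        · have hxj : x ≠ j := (hxy.trans hyj).ne
          rw [Equiv.swap_apply_of_ne_of_ne hxc hxj]
          exact h'.mono x (Finset.mem_coe.2 (Finset.mem_erase.2 ⟨hxc, hx⟩)) y
            (Finset.mem_coe.2 hy') hxy hyj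

theorem pf_CYC : T_CYC := by
  classical
  intro m C j hj hle
  obtain ⟨σ, h⟩ := aux j _ C.toFinite.toFinset rfl ((Set.Finite.mem_toFinset _).2 hj)
    (fun x hx => hle x ((Set.Finite.mem_toFinset _).1 hx))
  rw [Set.Finite.coe_toFinset] at h
  exact ⟨σ, h⟩

end Pool.Agent.H94.WT
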